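import Pool.Agent.Run7.h459.Fi

/-!
# Forcing properties of local structure depend on the generating set

We construct an infinite, finitely generated, residually finite group and two finite symmetric
generating sets of it, such that the first Cayley graph is connectivity-forcing for all large radii,
while the second one fails to be connectivity-forcing for infinitely many radii.

Outline. Let Ga be the group of an infinite walker on the integers with two types of involutive
letters, extended centrally by a product of cyclic groups of order 15, one for each scale 11^j; the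
central generator of scale j is first visible in relators of length about 4(11^j+1). The group is
the amalgam of H = Ga x Ga x (Z/2)^7 with C x Z/2 over a central subgroup C; the factor (Z/2)^7 is a
gadget which makes the labels of the Cayley graphs recognisable, so that locally prescribed graphs
are the same as permutation systems of the generators which are correct on short words.

For the first generating set, the central elements visible at radius r always form a group, each
system for H has a free central action, and the systems for the whole group over it are the lifts of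
the fixed-point-free involutions of the orbit space avoiding short obstructions; a positive
proportion of all fixed-point-free involutions is of this form, and a union bound shows that most
are connected.

For the second generating set and r = 4(11^i+1)+1, the central elements of scale at most i visible
at radius r do not form a group. In a transitive system either the part of exponent 3 or the part of
exponent 5 of the central action is free, and this allows one to divide the number of vertices by 3
or by 5, up to a factor coprime to it. Since the set of possible numbers of vertices is closed under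
addition, infinitely many of them carry no transitive system at all.
-/

namespace Pool.Agent.Results.MP_f7aca4_co.GeneratingSetDependence

/-- The vertices of `G` at graph distance at most `r` from `v`, that is, those reached from `v` by a
walk with at most `r` edges. -/
def ball {V : Type} (G : SimpleGraph V) (v : V) (r : ℕ) : Set V :=
  {u | ∃ p : G.Walk v u, p.length ≤ r}

theorem self_mem_ball {V : Type} (G : SimpleGraph V) (v : V) (r : ℕ) : v ∈ ball G v r :=
  ⟨SimpleGraph.Walk.nil, Nat.zero_le _⟩

/-- `G` is `r`-locally `F` (where `o` is the fixed vertex of `F`): for every vertex `v` of `G` there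
is a graph isomorphism from the induced subgraph of `G` on `ball G v r` to the induced subgraph of
`F` on `ball F o r` sending `v` to `o`. -/
def IsLocally {V W : Type} (G : SimpleGraph V) (F : SimpleGraph W) (o : W) (r : ℕ) : Prop :=
  ∀ v : V, ∃ φ : G.induce (ball G v r) ≃g F.induce (ball F o r),
    φ ⟨v, self_mem_ball G v r⟩ = ⟨o, self_mem_ball F o r⟩

/-- The set of graphs on the vertex set `Fin n` that are `r`-locally `F`. -/
def localGraphs {W : Type} (F : SimpleGraph W) (o : W) (r n : ℕ) : Set (SimpleGraph (Fin n)) :=
  {G | IsLocally G F o r}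

/-- The pair (F,r) is connectivity-forcing: the proportion of connected graphs among all graphs
in `localGraphs F o r n` tends to 1 as n tends to infinity through those n for which this set is
nonempty. (If there are only finitely many such n, then the limit is along the trivial filter and
the property holds.) -/
def ConnectivityForcing {W : Type} (F : SimpleGraph W) (o : W) (r : ℕ) : Prop :=
  Filter.Tendsto
    (fun n : ℕ => (({G | G ∈ localGraphs F o r n ∧ G.Connected}.ncard : ℕ) : ℝ) /
      (((localGraphs F o r n).ncard : ℕ) : ℝ))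
    (Filter.atTop ⊓ Filter.principal {n : ℕ | (localGraphs F o r n).Nonempty}) (nhds 1)

/-- `S` is a finite generating set of the group `Γ`, closed under inverses and not containing the
identity. -/
def IsGenSet {Γ : Type} [Group Γ] (S : Set Γ) : Prop :=
  S.Finite ∧ Subgroup.closure S = ⊤ ∧ (∀ s, s ∈ S → s⁻¹ ∈ S) ∧ (1 : Γ) ∉ S

/-- The Cayley graph of Γ with respect to S: distinct `g`, `h` are adjacent if `h = g * s` or
`g = h * s` for some `s ∈ S`. -/
def Cay {Γ : Type} [Group Γ] (S : Set Γ) : SimpleGraph Γ :=
  SimpleGraph.fromRel fun g h => ∃ s ∈ S, h = g * s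

section
open Run7.h459

theorem ball_eq {V : Type} (G : SimpleGraph V) (v : V) (r : ℕ) : ball G v r = Run7.h459.ball G v r :=
  rfl

theorem isLocally_iff {V W : Type} (G : SimpleGraph V) (F : SimpleGraph W) (o : W) (r : ℕ) :
    IsLocally G F o r ↔ RLocal G F o r := Iff.rfl

theorem cay_eq {Γ : Type} [Group Γ] (S : Set Γ) : Cay S = cayG S := rfl

variable {Γ T : Type} [Group Γ] {val : T → Γ}

theorem isGenSet_range [Fintype T] (H : LetH val) (h : Subgroup.closure (Set.range val) = ⊤) :
    IsGenSet (Set.range val) := by
  refine ⟨Set.finite_range val, h, ?_, ?_⟩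
  · rintro _ ⟨t, rfl⟩
    exact ⟨t, (val_inv H t).symm⟩
  · rintro ⟨t, ht⟩
    exact H.ne t ht

/-- systems without transitivity being rare gives connectivity-forcing -/
theorem forcing_of_systems (H : LetH val) (hR : Rig val) {r : ℕ} (hr : 2 ≤ r)
    (hodd : ∀ (X : Type) (π : T → Equiv.Perm X), Lcl val (2 * r) π → ∀ w : List T,
      w.length = 2 * r + 1 → vv val w = 1 → evp π w = 1)
    (hs : ∀ ε : ℝ, 0 < ε → ∃ N : ℕ, ∀ n, N ≤ n →
      (({π : T → Equiv.Perm (Fin n) | Lcl val (2 * r + 1) π ∧ ¬ Trn π}.ncard : ℕ) : ℝ) ≤
      ε * (({π : T → Equiv.Perm (Fin n) | Lcl val (2 * r + 1) π}.ncard : ℕ) : ℝ)) :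
    ConnectivityForcing (Cay (Set.range val)) 1 r := by
  classical
  unfold ConnectivityForcing
  rw [Metric.tendsto_nhds]
  intro ε hε
  rw [Filter.eventually_inf_principal, Filter.eventually_atTop]
  obtain ⟨N, hN⟩ := hs (ε / 2) (by positivity)
  refine ⟨N + 1, fun n hn hne => ?_⟩
  have hNe : Nonempty (Fin n) := ⟨⟨0, by omega⟩⟩
  set A : Set (SimpleGraph (Fin n)) := localGraphs (Cay (Set.range val)) 1 r n with hA
  have hAeq : A = gr '' {π : T → Equiv.Perm (Fin n) | Lcl val (2 * r + 1) π} :=
    graph_image H hR hr (fun π => hodd _ π)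
  have hDeq : {G : SimpleGraph (Fin n) | G ∈ A ∧ ¬ G.Connected} =
      gr '' {π : T → Equiv.Perm (Fin n) | Lcl val (2 * r + 1) π ∧ ¬ Trn π} :=
    graph_image' H hR hr (fun π => hodd _ π)
  have hinj := gr_injOn (X := Fin n) (r := r) H hR (by omega)
  have hAc : A.ncard = {π : T → Equiv.Perm (Fin n) | Lcl val (2 * r + 1) π}.ncard := by
    rw [hAeq]; exact hinj.ncard_image
  have hDc : {G : SimpleGraph (Fin n) | G ∈ A ∧ ¬ G.Connected}.ncard =
      {π : T → Equiv.Perm (Fin n) | Lcl val (2 * r + 1) π ∧ ¬ Trn π}.ncard := by
    rw [hDeq]; exact (hinj.mono fun π hπ => hπ.1).ncard_image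
  have hb := hN n (by omega)
  rw [← hAc, ← hDc] at hb
  have hApos : 0 < A.ncard := (Set.ncard_pos (Set.toFinite A)).2 hne
  have hApos' : (0:ℝ) < (A.ncard : ℝ) := by exact_mod_cast hApos
  have hsplit : {G : SimpleGraph (Fin n) | G ∈ A ∧ G.Connected}.ncard +
      {G : SimpleGraph (Fin n) | G ∈ A ∧ ¬ G.Connected}.ncard = A.ncard := by
    rw [← Set.ncard_union_eq ?_ (Set.toFinite _) (Set.toFinite _)]
    · congr 1
      ext G
      simp only [Set.mem_union, Set.mem_ofPred_eq]
      tauto
    · rw [Set.disjoint_left]
      rintro G ⟨_, h1⟩ ⟨_, h2⟩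
      exact h2 h1
  have hsplit' : (({G : SimpleGraph (Fin n) | G ∈ A ∧ G.Connected}.ncard : ℕ) : ℝ) =
      (A.ncard : ℝ) - (({G : SimpleGraph (Fin n) | G ∈ A ∧ ¬ G.Connected}.ncard : ℕ) : ℝ) := by
    rw [eq_sub_iff_add_eq]
    exact_mod_cast hsplit
  rw [Real.dist_eq, hsplit', sub_div, div_self hApos'.ne', sub_sub_cancel_left, abs_neg,
    abs_of_nonneg (by positivity), div_lt_iff₀ hApos']
  nlinarith

/-- infinitely many numbers of vertices without transitive systems exclude connectivity-forcing -/
theorem not_forcing_of_systems (H : LetH val) (hR : Rig val) {r : ℕ} (hr : 2 ≤ r)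
    (hodd : ∀ (X : Type) (π : T → Equiv.Perm X), Lcl val (2 * r) π → ∀ w : List T,
      w.length = 2 * r + 1 → vv val w = 1 → evp π w = 1)
    (hs : ∀ n0 : ℕ, ∃ n, n0 ≤ n ∧ (∃ π : T → Equiv.Perm (Fin n), Lcl val (2 * r + 1) π) ∧
      ∀ π : T → Equiv.Perm (Fin n), Lcl val (2 * r + 1) π → ¬ Trn π) :
    ¬ ConnectivityForcing (Cay (Set.range val)) 1 r := by
  classical
  intro hcf
  unfold ConnectivityForcing at hcf
  rw [Metric.tendsto_nhds] at hcf
  have h1 := hcf 1 one_pos
  rw [Filter.eventually_inf_principal, Filter.eventually_atTop] at h1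
  obtain ⟨N, hN⟩ := h1
  obtain ⟨n, hn, ⟨π, hπ⟩, hno⟩ := hs (N + 1)
  have hNe : Nonempty (Fin n) := ⟨⟨0, by omega⟩⟩
  have h2 := hN n (by omega) ⟨gr π, local_of_system H (by omega) hπ⟩
  have h3 : {G : SimpleGraph (Fin n) | G ∈ localGraphs (Cay (Set.range val)) 1 r n ∧ G.Connected} =
      ∅ := by
    ext G
    simp only [Set.mem_ofPred_eq, Set.mem_empty_iff_false, iff_false]
    rintro ⟨hG, hc⟩
    obtain ⟨π', h4, rfl⟩ := system_of_local H hR hr G (fun π => hodd _ π) hG
    exact hno π' h4 ((gr_connected H h4 (by omega)).1 hc)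
  rw [h3, Set.ncard_empty, Nat.cast_zero, zero_div, Real.dist_eq, zero_sub, abs_neg, abs_one] at h2
  exact lt_irrefl _ h2

end

/-- **Main theorem.** There are an infinite, finitely generated, residually finite group Γ and
finite symmetric generating sets S₁, S₂ of Γ not containing the identity such that the pair
(Cay(Γ,S₁), r) is connectivity-forcing for all sufficiently large r, while the pair
(Cay(Γ,S₂), r) is not connectivity-forcing for infinitely many r. -/
theorem result : ∃ (Γ : Type) (_ : Group Γ) (S₁ S₂ : Set Γ),
    Infinite Γ ∧ Group.FG Γ ∧ Group.ResiduallyFinite Γ ∧ IsGenSet S₁ ∧ IsGenSet S₂ ∧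
    (∃ r₀ : ℕ, ∀ r, r₀ ≤ r → ConnectivityForcing (Cay S₁) 1 r) ∧
    (∀ r₀ : ℕ, ∃ r, r₀ ≤ r ∧ ¬ ConnectivityForcing (Cay S₂) 1 r) := by
  have g1 := isGenSet_range Run7.h459.letG1 Run7.h459.clG1
  have g2 := isGenSet_range Run7.h459.letG2 Run7.h459.clG2
  refine ⟨Run7.h459.GG, inferInstance, Set.range Run7.h459.s1, Set.range Run7.h459.s2,
    Run7.h459.inf_GG, Group.fg_iff.2 ⟨_, g1.2.1, g1.1⟩, Run7.h459.rf_GG, g1, g2, ⟨489, ?_⟩, ?_⟩
  · intro r hr
    have hr2 : 2 ≤ r := by omega
    apply forcing_of_systems Run7.h459.letG1 Run7.h459.rigG1 hr2 (Run7.h459.odd1 hr2)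
    intro ε hε
    obtain ⟨N, hN⟩ := Run7.h459.S1_systems r hr ε hε
    refine ⟨N, fun n hn => ?_⟩
    simp only [Run7.h459.lcl_g1]
    exact hN n hn
  · intro r₀
    refine ⟨4 * (11 ^ (r₀ + 2) + 1) + 1, ?_, ?_⟩
    · have : r₀ + 2 < 11 ^ (r₀ + 2) := Nat.lt_pow_self (by norm_num)
      omega
    · have hr2 : 2 ≤ 4 * (11 ^ (r₀ + 2) + 1) + 1 := by
        generalize 11 ^ (r₀ + 2) = q
        omega
      apply not_forcing_of_systems Run7.h459.letG2 Run7.h459.rigG2 hr2 (Run7.h459.odd2 hr2)
      intro n0
      obtain ⟨n, hn, hE, hT⟩ := Run7.h459.S2_systems (i := r₀ + 2) (by omega) n0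
      refine ⟨n, hn, ?_, ?_⟩
      · obtain ⟨π, hπ⟩ := hE
        refine ⟨π, (Run7.h459.lcl_g2 π).2 ?_⟩
        rw [show 2 * (4 * (11 ^ (r₀ + 2) + 1) + 1) + 1 = Run7.h459.Lam (r₀ + 2) by
          unfold Run7.h459.Lam; ring]
        exact hπ
      · intro π hπ
        apply hT π
        rw [← Run7.h459.lcl_g2]
        rw [show 2 * (4 * (11 ^ (r₀ + 2) + 1) + 1) + 1 = Run7.h459.Lam (r₀ + 2) by
          unfold Run7.h459.Lam; ring] at hπ
        exact hπ

end Pool.Agent.Results.MP_f7aca4_co.GeneratingSetDependence
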